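import Pool.Agent.W117.GH.Stm

/-!
# Self-dual fields: the energy density and the stress tensor (task GH-ST)
-/

set_option autoImplicit false

open scoped ContDiff ComplexConjugate
open MeasureTheory Filter Topology Set

noncomputable section

namespace Pool.Agent.W947.GH.ST

open Pool.Agent.W117.GH

theorem main : PropST := by
  intro ε X hX
  have hF00 : ∀ z, X.F 0 0 z = 0 := fun z => by simp [Fields.F]
  have hF11 : ∀ z, X.F 1 1 z = 0 := fun z => by simp [Fields.F]
  have hF10 : ∀ z, X.F 1 0 z = -X.F 0 1 z := fun z => by simp [Fields.F]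
  have hne : ∀ z, Real.exp (X.eta z) ≠ 0 := fun z => (Real.exp_pos _).ne'
  have hinv : ∀ z, Real.exp (-X.eta z) = (Real.exp (X.eta z))⁻¹ := fun z => Real.exp_neg _
  have key : ∀ z, X.H ε z * Real.exp (X.eta z) =
      1 / 4 * Real.exp (X.eta z) * (ε ^ 2 - Complex.normSq (X.phi z)) ^ 2 +
        Complex.normSq (X.D 0 X.phi z) := by
    intro z
    have h1 : X.F 0 1 z = 1 / 2 * Real.exp (X.eta z) * (ε ^ 2 - Complex.normSq (X.phi z)) :=
      hX.F_eq z
    have h2 := hX.D_eq z
    have e := hne z
    simp only [Fields.H, Fields.inv, Fin.sum_univ_two, hF00, hF11, hF10, h2, h1, hinv]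
    simp only [Complex.mul_re, Complex.mul_im, Complex.I_re, Complex.I_im, Complex.conj_re,
      Complex.conj_im, Complex.normSq_apply]
    simp
    field_simp
    ring
  refine ⟨key, ?_⟩
  intro j k z
  have h1 : X.F 0 1 z = 1 / 2 * Real.exp (X.eta z) * (ε ^ 2 - Complex.normSq (X.phi z)) :=
    hX.F_eq z
  have h2 := hX.D_eq z
  have e := hne z
  have hk := key z
  fin_cases j <;> fin_cases k <;>
    simp only [Fields.T, Fields.inv, Fields.met, Fin.sum_univ_two, hF00, hF11, hF10, h2, h1, hinv,
      Fin.zero_eta, Fin.mk_one, Fin.isValue, if_true]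
  · simp only [Complex.mul_re, Complex.conj_re, Complex.conj_im, Complex.normSq_apply] at hk ⊢
    simp
    rw [mul_comm (Real.exp (X.eta z)) (X.H ε z), hk]
    field_simp
    ring
  · simp [Complex.mul_re, Complex.mul_im]
    ring
  · simp [Complex.mul_re, Complex.mul_im]
    ring
  · simp only [Complex.mul_re, Complex.mul_im, Complex.I_re, Complex.I_im, Complex.conj_re,
      Complex.conj_im, Complex.normSq_apply] at hk ⊢
    simp
    rw [mul_comm (Real.exp (X.eta z)) (X.H ε z), hk]
    field_simp
    ring

end Pool.Agent.W947.GH.ST
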