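import Pool.Agent.W117.GH.Stm

/-!
# Uniqueness on `[0, δ]` (task GH-UN)
-/

set_option autoImplicit false

open scoped ContDiff ComplexConjugate
open MeasureTheory Filter Topology Set

noncomputable section

namespace Pool.Agent.W947.GH.UN

open Pool.Agent.W117.GH

/-- the inner integral -/
def inn (F : ℝ → ℝ → ℝ) (G : ℝ → ℝ) (t : ℝ) : ℝ := ∫ θ in (0:ℝ)..1, F (θ * t) (G (θ * t))

lemma inn_cont (F : ℝ → ℝ → ℝ) (G : ℝ → ℝ) (hF : Continuous (Function.uncurry F))
    (hG : Continuous G) : Continuous (inn F G) := by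
  unfold inn
  apply intervalIntegral.continuous_parametric_intervalIntegral_of_continuous'
  have : (Function.uncurry fun (t : ℝ) (θ : ℝ) => F (θ * t) (G (θ * t))) =
      fun p : ℝ × ℝ => Function.uncurry F (p.2 * p.1, G (p.2 * p.1)) := by
    funext p
    rfl
  rw [this]
  exact hF.comp ((continuous_snd.mul continuous_fst).prodMk
    (hG.comp (continuous_snd.mul continuous_fst)))

lemma ext_eq (F : ℝ → ℝ → ℝ) (δ h0 : ℝ) (g : ℝ → ℝ)
    (hg : ∀ x ∈ Icc 0 δ, g x = h0 + ∫ t in (0:ℝ)..x, ∫ θ in (0:ℝ)..1, F (θ * t) (g (θ * t)))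
    (G : ℝ → ℝ) (hG : ∀ x ∈ Icc 0 δ, G x = g x) :
    ∀ x ∈ Icc 0 δ, G x = h0 + ∫ t in (0:ℝ)..x, inn F G t := by
  intro x hx
  rw [hG x hx, hg x hx]
  congr 1
  apply intervalIntegral.integral_congr
  intro t ht
  rw [uIcc_of_le hx.1] at ht
  unfold inn
  apply intervalIntegral.integral_congr
  intro θ hθ
  rw [uIcc_of_le zero_le_one] at hθ
  simp only
  rw [hG (θ * t)]
  refine ⟨mul_nonneg hθ.1 ht.1, ?_⟩
  calc θ * t ≤ 1 * t := by
        apply mul_le_mul_of_nonneg_right hθ.2 ht.1
    _ ≤ δ := by linarith [ht.2, hx.2]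

theorem main : PropUN := by
  intro F L δ h0 hF hδ hL g₁ g₂ hg₁ hg₂ he₁ he₂
  -- extensions
  set G₁ : ℝ → ℝ := IccExtend hδ.le (restrict (Icc 0 δ) g₁) with hG₁
  set G₂ : ℝ → ℝ := IccExtend hδ.le (restrict (Icc 0 δ) g₂) with hG₂
  have c₁ : Continuous G₁ := (continuousOn_iff_continuous_restrict.mp hg₁).Icc_extend'
  have c₂ : Continuous G₂ := (continuousOn_iff_continuous_restrict.mp hg₂).Icc_extend'
  have e₁ : ∀ x ∈ Icc 0 δ, G₁ x = g₁ x := by
    intro x hx
    rw [hG₁, IccExtend_of_mem _ _ hx]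
    rfl
  have e₂ : ∀ x ∈ Icc 0 δ, G₂ x = g₂ x := by
    intro x hx
    rw [hG₂, IccExtend_of_mem _ _ hx]
    rfl
  have E₁ := ext_eq F δ h0 g₁ he₁ G₁ e₁
  have E₂ := ext_eq F δ h0 g₂ he₂ G₂ e₂
  set K : ℝ := max L 1 with hK
  have hK1 : 1 ≤ K := le_max_right _ _
  have hKL : ∀ x y y', |F x y - F x y'| ≤ K * |y - y'| := fun x y y' =>
    (hL x y y').trans (mul_le_mul_of_nonneg_right (le_max_left _ _) (abs_nonneg _))
  set lam : ℝ := 2 * K with hlam
  have hlam0 : 0 < lam := by positivity
  -- the maximum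
  have hcd : Continuous fun x => Real.exp (-(lam * x)) * |G₁ x - G₂ x| := by fun_prop
  obtain ⟨x0, hx0, hmax⟩ := isCompact_Icc.exists_isMaxOn (nonempty_Icc.mpr hδ.le)
    (hcd.continuousOn (s := Icc 0 δ))
  set M : ℝ := Real.exp (-(lam * x0)) * |G₁ x0 - G₂ x0| with hM
  have hM0 : 0 ≤ M := by positivity
  have hle : ∀ x ∈ Icc 0 δ, |G₁ x - G₂ x| ≤ M * Real.exp (lam * x) := by
    intro x hx
    have h := hmax hx
    simp only [mem_setOf_eq] at h
    rw [← hM] at h
    have h2 : |G₁ x - G₂ x| = (Real.exp (-(lam * x)) * |G₁ x - G₂ x|) * Real.exp (lam * x) := by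
      rw [mul_comm (Real.exp (-(lam * x))), mul_assoc, ← Real.exp_add]
      simp
    rw [h2]
    exact mul_le_mul_of_nonneg_right h (Real.exp_pos _).le
  -- the inner estimate
  have hinner : ∀ t ∈ Icc 0 δ, |inn F G₁ t - inn F G₂ t| ≤ K * M * Real.exp (lam * t) := by
    intro t ht
    unfold inn
    rw [← intervalIntegral.integral_sub]
    · have h := intervalIntegral.norm_integral_le_of_norm_le_const (a := (0:ℝ)) (b := 1)
        (f := fun θ => F (θ * t) (G₁ (θ * t)) - F (θ * t) (G₂ (θ * t)))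
        (C := K * M * Real.exp (lam * t)) (by
          intro θ hθ
          rw [uIoc_of_le zero_le_one] at hθ
          have hmem : θ * t ∈ Icc 0 δ := by
            refine ⟨mul_nonneg hθ.1.le ht.1, ?_⟩
            calc θ * t ≤ 1 * t := mul_le_mul_of_nonneg_right hθ.2 ht.1
              _ ≤ δ := by linarith [ht.2]
          have hmono : Real.exp (lam * (θ * t)) ≤ Real.exp (lam * t) := by
            apply Real.exp_le_exp.mpr
            apply mul_le_mul_of_nonneg_left _ hlam0.le
            calc θ * t ≤ 1 * t := mul_le_mul_of_nonneg_right hθ.2 ht.1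
              _ = t := one_mul t
          calc ‖F (θ * t) (G₁ (θ * t)) - F (θ * t) (G₂ (θ * t))‖
              ≤ K * |G₁ (θ * t) - G₂ (θ * t)| := hKL _ _ _
            _ ≤ K * (M * Real.exp (lam * (θ * t))) :=
                mul_le_mul_of_nonneg_left (hle _ hmem) (by linarith)
            _ ≤ K * (M * Real.exp (lam * t)) :=
                mul_le_mul_of_nonneg_left (mul_le_mul_of_nonneg_left hmono hM0) (by linarith)
            _ = K * M * Real.exp (lam * t) := by ring)
      simpa using h
    · exact (hF.comp ((continuous_id.mul continuous_const).prodMk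
        (c₁.comp (continuous_id.mul continuous_const)))).intervalIntegrable _ _
    · exact (hF.comp ((continuous_id.mul continuous_const).prodMk
        (c₂.comp (continuous_id.mul continuous_const)))).intervalIntegrable _ _
  -- the outer estimate
  have hexp : ∫ t in (0:ℝ)..x0, Real.exp (lam * t) = (Real.exp (lam * x0) - 1) / lam := by
    rw [intervalIntegral.integral_comp_mul_left (fun t => Real.exp t) hlam0.ne']
    simp
    field_simp
  have houter : |G₁ x0 - G₂ x0| ≤ M / 2 * Real.exp (lam * x0) := by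
    rw [E₁ x0 hx0, E₂ x0 hx0, add_sub_add_left_eq_sub,
      ← intervalIntegral.integral_sub ((inn_cont F G₁ hF c₁).intervalIntegrable _ _)
        ((inn_cont F G₂ hF c₂).intervalIntegrable _ _)]
    have h := intervalIntegral.norm_integral_le_of_norm_le (μ := volume) (a := (0:ℝ)) (b := x0)
      (f := fun t => inn F G₁ t - inn F G₂ t) (g := fun t => K * M * Real.exp (lam * t)) hx0.1
      (by
        refine Eventually.of_forall fun t ht => ?_
        exact hinner t ⟨ht.1.le, ht.2.trans hx0.2⟩)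
      ((by fun_prop : Continuous fun t => K * M * Real.exp (lam * t)).intervalIntegrable _ _)
    rw [Real.norm_eq_abs] at h
    refine h.trans ?_
    rw [intervalIntegral.integral_const_mul, hexp]
    have hKp : 0 < K := by linarith
    have : K * M * ((Real.exp (lam * x0) - 1) / lam) = M / 2 * (Real.exp (lam * x0) - 1) := by
      rw [hlam]
      field_simp
    rw [this]
    nlinarith
  have hM2 : M ≤ M / 2 := by
    calc M = Real.exp (-(lam * x0)) * |G₁ x0 - G₂ x0| := hM
      _ ≤ Real.exp (-(lam * x0)) * (M / 2 * Real.exp (lam * x0)) :=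
          mul_le_mul_of_nonneg_left houter (Real.exp_pos _).le
      _ = M / 2 * (Real.exp (-(lam * x0)) * Real.exp (lam * x0)) := by ring
      _ = M / 2 := by
          rw [← Real.exp_add]
          simp
  have hMz : M = 0 := by linarith
  intro x hx
  have h := hle x hx
  rw [hMz, zero_mul] at h
  have h2 : G₁ x - G₂ x = 0 := abs_nonpos_iff.mp h
  rw [← e₁ x hx, ← e₂ x hx]
  linarith

end Pool.Agent.W947.GH.UN
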