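import Pool.Agent.W117.GH.Stm

/-!
# The function `v` on the plane is smooth (task GH-VS)
-/

set_option autoImplicit false

open scoped ContDiff ComplexConjugate
open MeasureTheory Filter Topology Set

noncomputable section

namespace Pool.Agent.W947.GH.VS

open Pool.Agent.W117.GH

lemma normSq_contDiff : ContDiff ℝ ∞ (fun z : ℂ => Complex.normSq z) := by
  have h : (fun z : ℂ => Complex.normSq z) = fun z : ℂ => z.re * z.re + z.im * z.im := by
    funext z
    exact Complex.normSq_apply z
  rw [h]
  exact (Complex.reCLM.contDiff.mul Complex.reCLM.contDiff).add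
    (Complex.imCLM.contDiff.mul Complex.imCLM.contDiff)

lemma pow_contDiff (k : ℕ) : ContDiff ℝ ∞ (fun z : ℂ => Complex.normSq (z ^ k - 1)) :=
  normSq_contDiff.comp ((contDiff_id.pow k).sub contDiff_const)

lemma formula (a : ℝ) (k m : ℕ) (h q : ℝ → ℝ) (hk : 2 ≤ k) (hp : Prof a k m h q) (z : ℂ)
    (hz : z ^ k ≠ 1) :
    vv k m h q z = h (xx k z) - m * Real.log (Complex.normSq (z ^ k - 1)) := by
  by_cases h0 : z = 0
  · subst h0
    have hk0 : k ≠ 0 := by omega
    simp [vv, xx, hk0]
  · have hn : 0 < Complex.normSq (z ^ k - 1) := Complex.normSq_pos.mpr (sub_ne_zero.mpr hz)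
    have hr : 0 < Complex.normSq z := Complex.normSq_pos.mpr h0
    have hkr : (k : ℝ) ≠ 0 := by
      have : k ≠ 0 := by omega
      exact_mod_cast this
    set n := Complex.normSq (z ^ k - 1) with hn'
    set r := Complex.normSq z with hr'
    have hxp : 0 < n ^ (-(1 / (k : ℝ))) := Real.rpow_pos_of_pos hn _
    have hx : xx k z = r * n ^ (-(1 / (k : ℝ))) := rfl
    have hx0 : 0 < xx k z := by
      rw [hx]
      positivity
    have hpow : (n ^ (-(1 / (k : ℝ)))) ^ k = n⁻¹ := by
      rw [← Real.rpow_natCast, ← Real.rpow_mul hn.le]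
      have : -(1 / (k : ℝ)) * (k : ℝ) = -1 := by field_simp
      rw [this, Real.rpow_neg_one]
    have hyy : (xx k z ^ k)⁻¹ = yy k z := by
      rw [hx, mul_pow, hpow]
      simp only [yy]
      rw [← hn', ← hr']
      field_simp
    have hlog : Real.log (xx k z) = Real.log r - 1 / (k : ℝ) * Real.log n := by
      rw [hx, Real.log_mul hr.ne' hxp.ne', Real.log_rpow hn]
      ring
    have hrel := hp.rel (xx k z) hx0
    rw [hyy, hlog] at hrel
    have hv : vv k m h q z = -(k * m : ℝ) * Real.log r + q (yy k z) := by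
      simp only [vv, if_neg h0]
      rw [← hr']
    rw [hv, hrel]
    field_simp
    ring

lemma smooth (a : ℝ) (k m : ℕ) (h q : ℝ → ℝ) (hk : 2 ≤ k) (hp : Prof a k m h q) :
    ContDiff ℝ ∞ (vv k m h q) := by
  rw [contDiff_iff_contDiffAt]
  intro z0
  by_cases h0 : z0 = 0
  · subst h0
    have hev : vv k m h q =ᶠ[𝓝 0]
        fun z => h (xx k z) - m * Real.log (Complex.normSq (z ^ k - 1)) := by
      have hopen : ∀ᶠ z : ℂ in 𝓝 0, z ^ k ≠ 1 := by
        have hc : ContinuousAt (fun z : ℂ => z ^ k) 0 := by fun_prop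
        apply hc.eventually_ne
        have hk0 : k ≠ 0 := by omega
        simp [hk0]
      filter_upwards [hopen] with z hz
      exact formula a k m h q hk hp z hz
    refine ContDiffAt.congr_of_eventuallyEq ?_ hev
    have hk0 : k ≠ 0 := by omega
    have hne : Complex.normSq ((0:ℂ) ^ k - 1) ≠ 0 := by simp [hk0]
    have hxx : ContDiffAt ℝ ∞ (xx k) 0 := by
      have : xx k = fun z => Complex.normSq z *
          (Complex.normSq (z ^ k - 1)) ^ (-(1 / (k : ℝ))) := rfl
      rw [this]
      exact normSq_contDiff.contDiffAt.mul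
        ((pow_contDiff k).contDiffAt.rpow_const_of_ne hne)
    exact (hp.smooth.contDiffAt.comp 0 hxx).sub
      (contDiffAt_const.mul ((pow_contDiff k).contDiffAt.log hne))
  · obtain ⟨δ, hδ, hq⟩ := hp.q_smooth
    have hev : vv k m h q =ᶠ[𝓝 z0]
        fun z => -(k * m : ℝ) * Real.log (Complex.normSq z) + q (yy k z) := by
      filter_upwards [isOpen_ne.mem_nhds h0] with z hz
      simp only [vv, if_neg (show z ≠ 0 from hz)]
    refine ContDiffAt.congr_of_eventuallyEq ?_ hev
    have hr : Complex.normSq z0 ≠ 0 := (Complex.normSq_pos.mpr h0).ne'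
    have hyy : ContDiffAt ℝ ∞ (yy k) z0 := by
      have : yy k = fun z => Complex.normSq (z ^ k - 1) / Complex.normSq z ^ k := rfl
      rw [this]
      exact (pow_contDiff k).contDiffAt.div (normSq_contDiff.contDiffAt.pow k) (pow_ne_zero k hr)
    have hy0 : 0 ≤ yy k z0 := by
      unfold yy
      exact div_nonneg (Complex.normSq_nonneg _) (pow_nonneg (Complex.normSq_nonneg _) _)
    have hqa : ContDiffAt ℝ ∞ q (yy k z0) :=
      hq.contDiffAt (Ioi_mem_nhds (by linarith))
    exact (contDiffAt_const.mul (normSq_contDiff.contDiffAt.log hr)).add (hqa.comp z0 hyy)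

theorem main : PropVS := by
  intro a k m h q hk hm _ _ hp
  refine ⟨smooth a k m h q hk hp, formula a k m h q hk hp, ?_⟩
  intro z
  by_cases hz : z ^ k = 1
  · have : hh k m z = 0 := by
      unfold hh
      rw [hz, sub_self]
      exact zero_pow (by omega)
    rw [this]
    simp
  · rw [formula a k m h q hk hp z hz]
    have hn : 0 < Complex.normSq (z ^ k - 1) := Complex.normSq_pos.mpr (sub_ne_zero.mpr hz)
    have h1 : Complex.normSq (hh k m z) = Complex.normSq (z ^ k - 1) ^ m := by
      unfold hh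
      rw [map_pow]
    rw [h1, Real.exp_sub]
    have h2 : Real.exp ((m : ℝ) * Real.log (Complex.normSq (z ^ k - 1))) =
        Complex.normSq (z ^ k - 1) ^ m := by
      rw [mul_comm, Real.exp_mul, Real.exp_log hn, Real.rpow_natCast]
    rw [h2, mul_div_cancel₀ _ (pow_pos hn m).ne']
    have hx0 : 0 ≤ xx k z := by
      unfold xx
      exact mul_nonneg (Complex.normSq_nonneg _) (Real.rpow_nonneg (Complex.normSq_nonneg _) _)
    exact Real.exp_lt_one_iff.mpr (hp.neg _ hx0)

end Pool.Agent.W947.GH.VS
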